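import Mathlib

/-!
# MP_c6d0b8_gt: a space satisfying (i), (ii) and (iii)

`X` is the topological sum of an uncountable one-point Lindelöfication of a discrete space and the
unit interval.
-/

set_option autoImplicit false

namespace Pool.Agent.Results.MP_c6d0b8_gt.LindSumInterval

open Set Topology

/-- The history seen by One before inning `n`: Two's answers `U 0, …, U (n - 1)`. -/
def hist {X : Type} (U : ℕ → Set X) (n : ℕ) : List (Set X) := (List.range n).map U

/-- One has a winning strategy in the game of length `ω` in which One picks sets `A n` from the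
family `𝒜`, Two answers with open sets `U n ⊇ A n`, and One wins the play iff `W U` holds.
A strategy chooses One's move from the list of Two's previous answers. -/
def OneWins (X : Type) [TopologicalSpace X] (𝒜 : Set (Set X)) (W : (ℕ → Set X) → Prop) : Prop :=
  ∃ σ : List (Set X) → Set X, (∀ l, σ l ∈ 𝒜) ∧
    ∀ U : ℕ → Set X, (∀ n, IsOpen (U n) ∧ σ (hist U n) ⊆ U n) → W U

/-- One has a winning predetermined strategy in the same game: a fixed sequence of moves. -/
def OneWinsPre (X : Type) [TopologicalSpace X] (𝒜 : Set (Set X)) (W : (ℕ → Set X) → Prop) :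
    Prop :=
  ∃ A : ℕ → Set X, (∀ n, A n ∈ 𝒜) ∧ ∀ U : ℕ → Set X, (∀ n, IsOpen (U n) ∧ A n ⊆ U n) → W U

/-- The family `K(X)` of nonempty compact subsets. -/
def NonemptyCompacts (X : Type) [TopologicalSpace X] : Set (Set X) :=
  {K | IsCompact K ∧ K.Nonempty}

/-- Every compact set lies in some `U n`. -/
def KCovers (X : Type) [TopologicalSpace X] (U : ℕ → Set X) : Prop :=
  ∀ K : Set X, IsCompact K → ∃ n, K ⊆ U n

/-- Real numbers with the topology of the one-point Lindelöfication: the points different from `0`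
are isolated and the neighbourhoods of `0` are the co-countable sets containing it. -/
def L : Type := ℝ

/-- the distinguished point -/
def pt : L := (0 : ℝ)

instance : TopologicalSpace L where
  IsOpen U := pt ∈ U → (Uᶜ).Countable
  isOpen_univ := by simp
  isOpen_inter U V hU hV h := by
    rw [compl_inter]
    exact (hU h.1).union (hV h.2)
  isOpen_sUnion 𝒰 h𝒰 h := by
    obtain ⟨U, hU, hpU⟩ := h
    exact (h𝒰 U hU hpU).mono (compl_subset_compl.mpr (subset_sUnion_of_mem hU))

lemma isOpen_L (U : Set L) : IsOpen U ↔ (pt ∈ U → (Uᶜ).Countable) := Iff.rfl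

lemma isOpen_of_notMem (U : Set L) (h : pt ∉ U) : IsOpen U := (isOpen_L U).2 fun h' => (h h').elim

lemma isOpen_of_countable (U : Set L) (h : (Uᶜ).Countable) : IsOpen U := (isOpen_L U).2 fun _ => h

/-- compact subsets of `L` are finite -/
lemma finite_of_isCompact {K : Set L} (hK : IsCompact K) : K.Finite := by
  by_contra hinf
  have hinf' : (K \ {pt}).Infinite := fun h => hinf ((h.insert pt).subset (by
    intro x hx
    by_cases h1 : x = pt
    · exact Or.inl h1
    · exact Or.inr ⟨hx, h1⟩))
  let e := hinf'.natEmbedding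
  let C : Set L := range fun n => (e n : L)
  have hC : C.Countable := countable_range _
  have hCpt : pt ∉ C := by
    rintro ⟨n, hn⟩
    exact (e n).2.2 hn
  -- the cover
  let 𝒰 : Option ℕ → Set L := fun o => match o with
    | none => Cᶜ
    | some n => {(e n : L)}
  have hopen : ∀ o, IsOpen (𝒰 o) := by
    rintro (_ | n)
    · exact isOpen_of_countable _ (by simpa [𝒰] using hC)
    · exact isOpen_of_notMem _ (fun h => (e n).2.2 (by simpa [𝒰] using h.symm))
  have hcov : K ⊆ ⋃ o, 𝒰 o := by
    intro x hx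
    by_cases h1 : x ∈ C
    · obtain ⟨n, rfl⟩ := h1
      exact mem_iUnion.2 ⟨some n, rfl⟩
    · exact mem_iUnion.2 ⟨none, h1⟩
  obtain ⟨t, ht⟩ := hK.elim_finite_subcover 𝒰 hopen hcov
  have hfin : C.Finite := by
    have hsub : C ⊆ ⋃ o ∈ t, (𝒰 o ∩ C) := by
      intro x hx
      have hxK : x ∈ K := by
        obtain ⟨n, rfl⟩ := hx
        exact (e n).2.1
      obtain ⟨o, ho, hxo⟩ := mem_iUnion₂.1 (ht hxK)
      exact mem_iUnion₂.2 ⟨o, ho, hxo, hx⟩
    refine (t.finite_toSet.biUnion (t := fun o => 𝒰 o ∩ C) ?_).subset (by simpa using hsub)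
    rintro (_ | n) _
    · have : 𝒰 none ∩ C = ∅ := compl_inter_self C
      rw [this]
      exact finite_empty
    · exact (finite_singleton _).subset inter_subset_left
  have hinj : Function.Injective fun n => (e n : L) :=
    fun a b hab => e.injective (Subtype.ext hab)
  exact infinite_range_of_injective hinj hfin

/-- the space `L` is Hausdorff -/
instance : T2Space L := by
  refine ⟨fun x y hxy => ?_⟩
  wlog hx : x ≠ pt generalizing x y with H
  · push Not at hx
    obtain ⟨u, v, h1, h2, h3, h4, h5⟩ := H y x hxy.symm (fun h => hxy (hx.trans h.symm))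
    exact ⟨v, u, h2, h1, h4, h3, h5.symm⟩
  refine ⟨{x}, {x}ᶜ, isOpen_of_notMem _ (fun h => hx (by simpa using h.symm)),
    isOpen_of_countable _ (by simp), rfl, ?_, disjoint_compl_right⟩
  simpa using hxy.symm

/-- the space `L` is normal -/
instance : NormalSpace L := by
  refine ⟨fun s t hs ht hst => ?_⟩
  by_cases h : pt ∈ s
  · have h' : pt ∉ t := fun h' => hst.le_bot ⟨h, h'⟩
    exact ⟨tᶜ, t, ht.isOpen_compl, isOpen_of_notMem _ h', hst.subset_compl_right, le_rfl,
      disjoint_compl_left⟩
  · exact ⟨s, sᶜ, isOpen_of_notMem _ h, hs.isOpen_compl, le_rfl, hst.symm.subset_compl_right,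
      disjoint_compl_right⟩

/-- the space of the example -/
abbrev X : Type := L ⊕ unitInterval

/-- an enumeration of a countable set of points together with `pt` -/
noncomputable def enum (C : Set L) : ℕ → L :=
  open Classical in
  if h : ((insert pt C : Set L)).Countable then (h.exists_eq_range (insert_nonempty _ _)).choose
  else fun _ => pt

lemma enum_spec {C : Set L} (h : C.Countable) : insert pt C = range (enum C) := by
  unfold enum
  have h' : (insert pt C : Set L).Countable := h.insert pt
  rw [dif_pos h']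
  exact (h'.exists_eq_range (insert_nonempty _ _)).choose_spec

/-- the finite part of One's move: the first points of the complements of the previous answers -/
noncomputable def fin1 (l : List (Set X)) : Set L :=
  insert pt (⋃ U ∈ l, enum ((Sum.inl ⁻¹' U)ᶜ) '' {n | n < l.length})

lemma fin1_finite (l : List (Set X)) : (fin1 l).Finite := by
  refine Finite.insert _ ?_
  have : (⋃ U ∈ l, enum ((Sum.inl ⁻¹' U)ᶜ) '' {n | n < l.length})
      = ⋃ U ∈ {U | U ∈ l}, enum ((Sum.inl ⁻¹' U)ᶜ) '' {n | n < l.length} := rfl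
  rw [this]
  refine Finite.biUnion (List.finite_toSet l) fun U _ => ?_
  exact (finite_lt_nat _).image _

/-- One's strategy -/
noncomputable def strat (l : List (Set X)) : Set X := Sum.inl '' fin1 l ∪ range Sum.inr

lemma strat_compact (l : List (Set X)) : IsCompact (strat l) :=
  ((fin1_finite l).isCompact.image continuous_inl).union
    (isCompact_range continuous_inr)

/-- statement (i) -/
lemma one_wins : OneWins X (NonemptyCompacts X) (KCovers X) := by
  refine ⟨strat, fun l => ⟨strat_compact l, ⟨Sum.inl pt, Or.inl ⟨pt, mem_insert _ _, rfl⟩⟩⟩, ?_⟩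
  intro U hU K hK
  -- each point of `L` is in all but finitely many `U n`
  have hcount : ∀ n, ((Sum.inl ⁻¹' (U n) : Set L)ᶜ).Countable := by
    intro n
    have h1 : IsOpen (Sum.inl ⁻¹' (U n) : Set L) := (hU n).1.preimage continuous_inl
    refine (isOpen_L _).1 h1 ?_
    exact (hU n).2 (Or.inl ⟨pt, mem_insert _ _, rfl⟩)
  have hev : ∀ x : L, ∃ N, ∀ n, N ≤ n → Sum.inl x ∈ U n := by
    intro x
    by_cases hx : ∀ n, Sum.inl x ∈ U n
    · exact ⟨0, fun n _ => hx n⟩
    · push Not at hx
      obtain ⟨k, hk⟩ := hx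
      have : x ∈ range (enum ((Sum.inl ⁻¹' (U k))ᶜ)) := by
        rw [← enum_spec (hcount k)]
        exact Or.inr hk
      obtain ⟨j, hj⟩ := this
      refine ⟨max k j + 1, fun n hn => (hU n).2 (Or.inl ⟨x, Or.inr ?_, rfl⟩)⟩
      refine mem_iUnion₂.2 ⟨U k, ?_, j, ?_, hj⟩
      · unfold hist
        exact List.mem_map.2 ⟨k, List.mem_range.2 (by omega), rfl⟩
      · simp only [hist, List.length_map, List.length_range, mem_ofPred_eq]
        omega
  have hfin : (Sum.inl ⁻¹' K : Set L).Finite := by
    apply finite_of_isCompact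
    exact (Topology.IsClosedEmbedding.inl).isCompact_preimage hK
  choose N hN using hev
  obtain ⟨M, hM⟩ := (hfin.image N).bddAbove
  refine ⟨M, ?_⟩
  rintro (x | x) hx
  · exact hN x M (hM ⟨x, hx, rfl⟩)
  · exact (hU M).2 (Or.inr ⟨x, rfl⟩)

/-- statement (iii) -/
lemma not_pre : ¬ OneWinsPre X (NonemptyCompacts X) (KCovers X) := by
  rintro ⟨A, hA, hW⟩
  have hfin : ∀ n, (Sum.inl ⁻¹' (A n) : Set L).Finite := fun n =>
    finite_of_isCompact ((Topology.IsClosedEmbedding.inl).isCompact_preimage (hA n).1)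
  have hc : (⋃ n, (Sum.inl ⁻¹' (A n) : Set L)).Countable :=
    countable_iUnion fun n => (hfin n).countable
  have hc' : (insert pt (⋃ n, (Sum.inl ⁻¹' (A n) : Set L))).Countable := hc.insert _
  obtain ⟨x, hx⟩ : ∃ x, x ∉ (insert pt (⋃ n, (Sum.inl ⁻¹' (A n) : Set L))) := by
    by_contra hcon
    push Not at hcon
    have h1 : (univ : Set ℝ).Countable := hc'.mono (fun y _ => hcon y)
    exact Cardinal.not_countable_real h1
  simp only [mem_insert_iff, mem_iUnion, mem_preimage, not_or, not_exists] at hx
  obtain ⟨n, hn⟩ := hW (fun _ => {Sum.inl x}ᶜ) (fun n => ⟨isClosed_singleton.isOpen_compl, by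
    intro y hy h
    rw [mem_singleton_iff] at h
    rw [h] at hy
    exact hx.2 n hy⟩) {Sum.inl x} isCompact_singleton
  exact hn rfl rfl

open MeasureTheory in
/-- statement (ii): Two covers the finite subsets of the unit interval by small sets -/
lemma not_finite_open : ¬ OneWins X {F | F.Finite} (fun U => ⋃ n, U n = univ) := by
  rintro ⟨σ, hσ, hW⟩
  -- a small open neighbourhood of a finite set
  have hsmall : ∀ (F : Set X) (n : ℕ), F.Finite → ∃ V : Set unitInterval, IsOpen V ∧
      Sum.inr ⁻¹' F ⊆ V ∧ volume V ≤ ENNReal.ofReal ((1 / 2) ^ (n + 2)) := by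
    intro F n hF
    have hF' : (Sum.inr ⁻¹' F : Set unitInterval).Finite :=
      hF.preimage Sum.inr_injective.injOn
    have h0 : volume (Sum.inr ⁻¹' F : Set unitInterval) = 0 := hF'.measure_zero _
    obtain ⟨V, hFV, hV, hm⟩ := Set.exists_isOpen_le_add (μ := volume)
      (Sum.inr ⁻¹' F : Set unitInterval) (ε := ENNReal.ofReal ((1 / 2) ^ (n + 2))) (by
        rw [Ne, ENNReal.ofReal_eq_zero, not_le]; positivity)
    exact ⟨V, hV, hFV, by simpa [h0] using hm⟩
  choose! V hVo hFV hVm using hsmall
  -- the play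
  let ans : List (Set X) → Set X := fun l => range Sum.inl ∪ Sum.inr '' V (σ l) l.length
  let H : ℕ → List (Set X) := fun n => Nat.rec [] (fun _ l => l ++ [ans l]) n
  let U : ℕ → Set X := fun n => ans (H n)
  have hHs : ∀ n, H (n + 1) = H n ++ [U n] := fun n => rfl
  have hH : ∀ n, H n = hist U n := by
    intro n
    induction n with
    | zero => rfl
    | succ n ih =>
      rw [hHs, ih]
      simp only [hist, List.range_succ, List.map_append, List.map_cons, List.map_nil]
  have hlen : ∀ n, (hist U n).length = n := fun n => by simp [hist]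
  have hU : ∀ n, U n = range Sum.inl ∪ Sum.inr '' V (σ (hist U n)) n := by
    intro n
    change ans (H n) = _
    rw [hH n]
    simp only [ans, hlen]
  have hcov := hW U (fun n => ⟨?_, ?_⟩)
  · have h1 : (univ : Set unitInterval) ⊆ ⋃ n, V (σ (hist U n)) n := by
      intro x _
      have : (Sum.inr x : X) ∈ ⋃ n, U n := by rw [hcov]; trivial
      obtain ⟨n, hn⟩ := mem_iUnion.1 this
      rw [hU n] at hn
      rcases hn with ⟨y, hy⟩ | ⟨y, hy, hyx⟩
      · cases hy
      · cases hyx
        exact mem_iUnion.2 ⟨n, hy⟩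
    have h2 : volume (univ : Set unitInterval) ≤ ∑' n : ℕ, ENNReal.ofReal ((1 / 2) ^ (n + 2)) :=
      (measure_mono h1).trans ((measure_iUnion_le _).trans
        (ENNReal.tsum_le_tsum fun n => hVm _ n (hσ _)))
    have h3 : ∑' n : ℕ, ENNReal.ofReal ((1 / 2 : ℝ) ^ (n + 2)) = ENNReal.ofReal (1 / 2) := by
      have hs : HasSum (fun n : ℕ => (1 / 2 : ℝ) ^ (n + 2)) (1 / 2) := by
        have h7 := (hasSum_geometric_two).mul_right ((1 / 2 : ℝ) ^ 2)
        have h8 : (2 : ℝ) * (1 / 2) ^ 2 = 1 / 2 := by norm_num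
        rw [h8] at h7
        have h9 : (fun n : ℕ => (1 / 2 : ℝ) ^ (n + 2)) = fun n : ℕ => (1 / 2 : ℝ) ^ n * (1 / 2) ^ 2 := by
          funext n
          rw [pow_add]
        rw [h9]
        exact h7
      rw [← ENNReal.ofReal_tsum_of_nonneg (fun n => by positivity) hs.summable, hs.tsum_eq]
    rw [h3] at h2
    have h4 : volume (univ : Set unitInterval) = 1 := measure_univ
    rw [h4] at h2
    have h5 : ENNReal.ofReal (1 / 2) < 1 := by
      rw [ENNReal.ofReal_lt_one]
      norm_num
    exact absurd h2 (not_le.mpr h5)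
  · rw [hU n]
    exact (isOpen_range_inl).union (isOpenMap_inr _ (hVo _ n (hσ _)))
  · rw [hU n]
    rintro (x | x) hx
    · exact Or.inl ⟨x, rfl⟩
    · exact Or.inr ⟨x, hFV _ n (hσ _) hx, rfl⟩

/-- There is a (Hausdorff, normal) space satisfying (i), (ii) and (iii): One has a winning strategy
in the game `G₁(𝒩[K(X)], ¬𝒦_X)`, One has no winning strategy in the finite-open game, and One has no
winning predetermined strategy in `G₁(𝒩[K(X)], ¬𝒦_X)`. -/
theorem result : ∃ (X : Type) (_ : TopologicalSpace X), T4Space X ∧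
    OneWins X (NonemptyCompacts X) (KCovers X) ∧
    ¬ OneWins X {F | F.Finite} (fun U => ⋃ n, U n = univ) ∧
    ¬ OneWinsPre X (NonemptyCompacts X) (KCovers X) := by
  refine ⟨X, inferInstance, ?_, one_wins, not_finite_open, not_pre⟩
  have : NormalSpace X := by
    refine ⟨fun s t hs ht hst => ?_⟩
    have h1 : SeparatedNhds (Sum.inl ⁻¹' s : Set L) (Sum.inl ⁻¹' t) :=
      NormalSpace.normal _ _ (hs.preimage continuous_inl) (ht.preimage continuous_inl)
        (hst.preimage _)
    have h2 : SeparatedNhds (Sum.inr ⁻¹' s : Set unitInterval) (Sum.inr ⁻¹' t) :=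
      NormalSpace.normal _ _ (hs.preimage continuous_inr) (ht.preimage continuous_inr)
        (hst.preimage _)
    obtain ⟨u1, v1, hu1, hv1, hs1, ht1, hd1⟩ := h1
    obtain ⟨u2, v2, hu2, hv2, hs2, ht2, hd2⟩ := h2
    refine ⟨Sum.inl '' u1 ∪ Sum.inr '' u2, Sum.inl '' v1 ∪ Sum.inr '' v2,
      (isOpenMap_inl _ hu1).union (isOpenMap_inr _ hu2),
      (isOpenMap_inl _ hv1).union (isOpenMap_inr _ hv2), ?_, ?_, ?_⟩
    · rintro (x | x) hx
      · exact Or.inl ⟨x, hs1 hx, rfl⟩
      · exact Or.inr ⟨x, hs2 hx, rfl⟩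
    · rintro (x | x) hx
      · exact Or.inl ⟨x, ht1 hx, rfl⟩
      · exact Or.inr ⟨x, ht2 hx, rfl⟩
    · rw [Set.disjoint_left]
      rintro (x | x) hx hx'
      · rcases hx with ⟨y, hy, hyx⟩ | ⟨y, hy, hyx⟩
        · cases hyx
          rcases hx' with ⟨z, hz, hzx⟩ | ⟨z, hz, hzx⟩
          · cases hzx
            exact (Set.disjoint_left.1 hd1) hy hz
          · cases hzx
        · cases hyx
      · rcases hx with ⟨y, hy, hyx⟩ | ⟨y, hy, hyx⟩
        · cases hyx
        · cases hyx
          rcases hx' with ⟨z, hz, hzx⟩ | ⟨z, hz, hzx⟩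
          · cases hzx
          · cases hzx
            exact (Set.disjoint_left.1 hd2) hy hz
  exact {}

end Pool.Agent.Results.MP_c6d0b8_gt.LindSumInterval
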